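import Pool.Agent.W361.LQ.Defs

/-!
# Project LQ (MP_3235d4_lc, S14549): closedness of `K S` and continuity of `Phi`
-/

set_option autoImplicit false

namespace Pool.Agent.W764.LQ

open Pool.Agent.W361.LQ BoundedContinuousFunction

theorem isClosed_K (S : Set ℕ) : IsClosed (K S) := by
  have h1 : K S = ⋂ n, ({a : Pm | M n • a.2.2 n = a.1} ∩ {a : Pm | n ∈ S → a.2.1 n = 1}) := by
    ext a
    simp only [K, Set.mem_ofPred_eq, Set.mem_iInter, Set.mem_inter_iff]
  rw [h1]
  refine isClosed_iInter (fun n => ?_)
  have c1 : Continuous (fun a : Pm => a.2.2 n) :=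
    (continuous_apply n).comp (continuous_snd.comp continuous_snd)
  have c2 : Continuous (fun a : Pm => a.2.1 n) :=
    (continuous_apply n).comp (continuous_fst.comp continuous_snd)
  refine IsClosed.inter ?_ ?_
  · exact isClosed_eq (c1.const_smul (M n)) continuous_fst
  · by_cases hn : n ∈ S
    · have h2 : {a : Pm | n ∈ S → a.2.1 n = 1} = {a : Pm | a.2.1 n = 1} := by
        ext a
        simp [hn]
      rw [h2]
      exact isClosed_eq c2 continuous_const
    · have h2 : {a : Pm | n ∈ S → a.2.1 n = 1} = Set.univ := by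
        ext a
        simp [hn]
      rw [h2]
      exact isClosed_univ

theorem continuous_co {Y : Type*} [TopologicalSpace Y] {r : Y → ℝ} {w : Y → UnitAddCircle}
    (hr : Continuous r) (hw : Continuous w) : Continuous (fun y => co (r y) (w y)) := by
  unfold co
  exact hr.prodMk ((hr.mul hw.norm).prodMk (hr.mul (hw.add continuous_const).norm))

theorem continuous_crd (i : ℕ) : Continuous (fun a : Pm => crd a i) := by
  unfold crd
  by_cases hi : i = 0
  · simp only [hi, if_true]
    exact continuous_co continuous_const continuous_fst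
  · simp only [hi, if_false]
    have c1 : Continuous (fun a : Pm => ((a.2.1 (i - 1) : unitInterval) : ℝ)) :=
      continuous_subtype_val.comp
        ((continuous_apply (i - 1)).comp (continuous_fst.comp continuous_snd))
    have c2 : Continuous (fun a : Pm => a.2.2 (i - 1)) :=
      (continuous_apply (i - 1)).comp (continuous_snd.comp continuous_snd)
    exact (continuous_co c1 c2).const_smul ((1 / 2 : ℝ) ^ i)

theorem continuous_Phi : Continuous Phi := by
  rw [continuous_iff_continuousAt]
  intro a
  rw [ContinuousAt, Metric.tendsto_nhds]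
  intro ε hε
  obtain ⟨N, hN⟩ : ∃ N : ℕ, 2 * (1 / 2 : ℝ) ^ N < ε / 2 := by
    obtain ⟨N, hN⟩ := exists_pow_lt_of_lt_one (show 0 < ε / 4 by linarith)
      (show (1 / 2 : ℝ) < 1 by norm_num)
    exact ⟨N, by linarith⟩
  have h1 : ∀ᶠ b in nhds a, ∀ i ∈ Finset.range N, dist (crd b i) (crd a i) < ε / 2 := by
    rw [Filter.eventually_all_finset]
    intro i _
    exact Metric.tendsto_nhds.1 ((continuous_crd i).continuousAt (x := a)) (ε / 2) (by linarith)
  filter_upwards [h1] with b hb
  refine lt_of_le_of_lt ?_ (show ε / 2 < ε by linarith)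
  rw [BoundedContinuousFunction.dist_le (by linarith)]
  intro i
  rw [Phi_apply, Phi_apply]
  by_cases hi : i < N
  · exact (hb i (Finset.mem_range.2 hi)).le
  · push Not at hi
    have h2 := norm_crd_le' b i
    have h3 := norm_crd_le' a i
    have h4 : (1 / 2 : ℝ) ^ i ≤ (1 / 2 : ℝ) ^ N :=
      pow_le_pow_of_le_one (by norm_num) (by norm_num) hi
    calc dist (crd b i) (crd a i) ≤ ‖crd b i‖ + ‖crd a i‖ := dist_le_norm_add_norm _ _
      _ ≤ ε / 2 := by linarith

theorem main0 : (∀ S : Set ℕ, IsClosed (K S)) ∧ Continuous Phi :=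
  ⟨isClosed_K, continuous_Phi⟩

end Pool.Agent.W764.LQ
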