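import Pool.Agent.W361.LQ.Stm
import Pool.Agent.W764.LQ.CPT0

/-!
# Project LQ (MP_3235d4_lc, S14549): the statement `S_CPT`
-/

set_option autoImplicit false

namespace Pool.Agent.W764.LQ

theorem main : Pool.Agent.W361.LQ.S_CPT := main0

end Pool.Agent.W764.LQ
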